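import Pool.Agent.Q120.SX.Stm2
import Pool.Agent.Q120.MGaps.Level

/-!
# Project SX: assembly
-/

set_option autoImplicit false

namespace Pool.Agent.Q120.SX

open Finset MeasureTheory Filter Pool.Agent.Q120.ET Pool.Agent.Q120.GM Pool.Agent.Q120.GE Pool.Agent.Q120.RZ Pool.Agent.Q120.SP
  Pool.Agent.Q120.LG Pool.Agent.Q120.SI Pool.Agent.Q120.MG
open scoped Topology

/-- The jobs. -/
structure XJobs : Prop where
  si : SI.Jobs
  spl : J_SPL
  spu : J_SPU
  sph : J_SPH
  spd : J_SPD2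
  spe : J_SPE

/-- The limit set is exactly the simplex, for all `m`, and no limit point is lost at infinity. -/
def Exact (s : ℝ) (S : Set ℕ) : Prop := ∀ m : ℕ, LimPts m S = Simp m s ∧ NoEsc m s S

theorem Rich.mono {h h' m m' k : ℕ} {T : Finset ℕ} (hT : Rich h m k T) (hh : h ≤ h') (hm : m' ≤ m) : Rich h' m' k T := by
  obtain ⟨h1, h2, h3⟩ := hT
  have h4 : h / 3 ≤ h' / 3 := Nat.div_le_div_right hh
  refine ⟨fun u hu1 hu2 => hm.trans ((h1 u hu1 (by omega)).trans (card_le_card ?_)), hm.trans (h2.trans (card_le_card ?_)),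
    hm.trans (h3.trans (card_le_card ?_))⟩
  · intro n hn
    rw [mem_filter] at hn ⊢
    exact ⟨hn.1, hn.2.1, by omega⟩
  · intro n hn
    rw [mem_filter] at hn ⊢
    exact ⟨hn.1, by omega⟩
  · intro n hn
    rw [mem_filter] at hn ⊢
    exact ⟨hn.1, by omega⟩

theorem wl_mono {s s' : ℝ} (h : s ≤ s') (k : ℕ) : wl s k ≤ wl s' k := by
  unfold wl
  exact Nat.floor_mono (mul_le_mul_of_nonneg_right h (sq_nonneg _))

theorem Pat.mono {m : ℕ} {c : Fin m → ℝ} {ε ε' : ℝ} (hε : ε ≤ ε') {k : ℕ} {T : Finset ℕ} (h : Pat m c ε k T) : Pat m c ε' k T := by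
  obtain ⟨b, h1, h2⟩ := h
  exact ⟨b, h1, fun i => ⟨(h2 i).1, (h2 i).2.1, (h2 i).2.2.trans (mul_le_mul_of_nonneg_right hε (sq_nonneg _))⟩⟩

/-- The limit set is closed: density of the rational points in the simplex. -/
theorem simp_subset {m : ℕ} {s : ℝ} (hs : 0 < s) {S : Set ℕ}
    (h : ∀ c : Fin m → ℚ, (∀ i, 0 < (c i : ℝ)) → ∑ i, (c i : ℝ) < s → (fun i => (c i : ℝ)) ∈ LimPts m S) : Simp m s ⊆ LimPts m S := by
  classical
  intro c hc ε hε
  obtain ⟨hc0, hcs⟩ := hc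
  have hci : ∀ i, c i ≤ s := fun i => (single_le_sum (fun j _ => hc0 j) (mem_univ i)).trans hcs
  -- a positive rational point near `c`
  set η : ℝ := min (1 / 2) (ε / (8 * s)) with hη
  have hη0 : 0 < η := lt_min (by norm_num) (by positivity)
  have hη1 : η ≤ 1 / 2 := min_le_left _ _
  have hη2 : η * s ≤ ε / 8 := by
    have h1 : η ≤ ε / (8 * s) := min_le_right _ _
    calc η * s ≤ ε / (8 * s) * s := mul_le_mul_of_nonneg_right h1 hs.le
      _ = ε / 8 := by field_simp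
  set e : ℝ := η * s / (2 * ((m : ℝ) + 1)) with he
  have hm0 : (0 : ℝ) < 2 * ((m : ℝ) + 1) := by positivity
  have he0 : 0 < e := by positivity
  have hes : e ≤ η * s := by
    rw [he]
    apply div_le_self (by positivity)
    have : (0 : ℝ) ≤ m := Nat.cast_nonneg m
    linarith
  have hex : ∀ i : Fin m, ∃ r : ℚ, (1 - η) * c i < (r : ℝ) ∧ (r : ℝ) < (1 - η) * c i + e := by
    intro i
    obtain ⟨r, h1, h2⟩ := exists_rat_btwn (show (1 - η) * c i < (1 - η) * c i + e by linarith)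
    exact ⟨r, h1, h2⟩
  choose r hr1 hr2 using hex
  have hr0 : ∀ i, 0 < (r i : ℝ) := fun i => lt_of_le_of_lt (mul_nonneg (by linarith) (hc0 i)) (hr1 i)
  have hsum : ∑ i, (r i : ℝ) < s := by
    have h1 : ∑ i, (r i : ℝ) ≤ ∑ i, ((1 - η) * c i + e) := sum_le_sum (fun i _ => (hr2 i).le)
    rw [sum_add_distrib, ← mul_sum, sum_const, card_univ, Fintype.card_fin, nsmul_eq_mul] at h1
    have h2 : (1 - η) * ∑ i, c i ≤ (1 - η) * s := mul_le_mul_of_nonneg_left hcs (by linarith)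
    have h3 : (m : ℝ) * e ≤ η * s / 2 := by
      rw [he, mul_div_assoc', div_le_div_iff₀ hm0 (by norm_num)]
      have h4 : 0 < η * s := by positivity
      have : (0 : ℝ) ≤ m := Nat.cast_nonneg m
      nlinarith
    have h4 : 0 < η * s := by positivity
    linarith
  have h1 := h r hr0 hsum (ε / 2) (by positivity)
  refine h1.mono (fun n hn i => ?_)
  have h2 := hn i
  have h3 : |(r i : ℝ) - c i| ≤ ε / 4 := by
    have h4 : η * c i ≤ η * s := mul_le_mul_of_nonneg_left (hci i) hη0.le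
    have h5 := hr1 i
    have h6 := hr2 i
    have h7 := hc0 i
    have h8 : 0 ≤ η * c i := by positivity
    rw [abs_le]
    constructor <;> linarith
  calc |((elt S (n + i + 1) : ℝ) - elt S (n + i)) / Real.log (elt S n) ^ 2 - c i|
      = |(((elt S (n + i + 1) : ℝ) - elt S (n + i)) / Real.log (elt S n) ^ 2 - r i) + (r i - c i)| := by
        congr 1
        ring
    _ ≤ |((elt S (n + i + 1) : ℝ) - elt S (n + i)) / Real.log (elt S n) ^ 2 - r i| + |(r i : ℝ) - c i| := abs_add_le _ _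
    _ < ε := by linarith

/-- **Lower half.** -/
theorem ae_simp (J : XJobs) {Ω : Type} [MeasurableSpace Ω] {μ : Measure Ω} [IsProbabilityMeasure μ] {A : Ω → Set ℕ}
    (hA : IsRandomSet A) {s : ℝ} (hs0 : 0 < s) {D : ℕ → ℝ} (hD0 : ∀ k, 0 ≤ D k)
    (hD : ∀ᶠ k : ℕ in atTop, relEntropy μ A (block k) ≤ D k)
    (hsum : ∀ t : ℝ, 0 ≤ t → t < s → ∃ β : ℝ, 0 < β ∧ β < 1 - t ∧ Summable (fun k : ℕ => D k / (2 : ℝ) ^ (β * k))) :
    ∀ᵐ ω ∂μ, ∀ m : ℕ, Simp m s ⊆ LimPts m (A ω) := by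
  classical
  have h1 : ∀ (m : ℕ) (c : Fin m → ℚ) (j : ℕ), (∀ i, 0 < (c i : ℝ)) → ∑ i, (c i : ℝ) < s → ∀ᵐ ω ∂μ, ∀ᶠ k : ℕ in atTop,
      ¬ ¬ Pat m (fun i => (c i : ℝ)) (1 / ((j : ℝ) + 1)) k (tr A (block k) ω) := by
    intro m c j hc hcs
    obtain ⟨β, hβ, hβ1, hβ2⟩ := hsum (∑ i, (c i : ℝ)) (sum_nonneg (fun i _ => (hc i).le)) hcs
    refine bc_ent J.si hA (fun k T => ¬ Pat m (fun i => (c i : ℝ)) (1 / ((j : ℝ) + 1)) k T)
      (fun k => 1 / 2 * (2 : ℝ) ^ (β * k)) D (Eventually.of_forall (fun k => by positivity)) hD ?_ ?_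
    · filter_upwards [J.spl m (fun i => (c i : ℝ)) β (1 / ((j : ℝ) + 1)) hc (by positivity) hβ1] with k hk Ω' _ μ' _ A' hA'
      refine (hk Ω' μ' A' hA').trans (le_of_eq ?_)
      congr 1
      ring
    · refine small_ratio (by norm_num) hD0 (Eventually.of_forall (fun k => by positivity)) hβ2 ?_
      refine (SI.summable_pow_div hβ 0).congr (fun k => ?_)
      rw [pow_zero]
  have h2 : ∀ᵐ ω ∂μ, ∀ (m : ℕ) (c : Fin m → ℚ) (j : ℕ), (∀ i, 0 < (c i : ℝ)) → ∑ i, (c i : ℝ) < s → ∀ᶠ k : ℕ in atTop,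
      ¬ ¬ Pat m (fun i => (c i : ℝ)) (1 / ((j : ℝ) + 1)) k (tr A (block k) ω) := by
    rw [ae_all_iff]
    intro m
    rw [ae_all_iff]
    intro c
    rw [ae_all_iff]
    intro j
    by_cases h3 : (∀ i, 0 < (c i : ℝ)) ∧ ∑ i, (c i : ℝ) < s
    · filter_upwards [h1 m c j h3.1 h3.2] with ω hω _ _
      exact hω
    · exact Filter.Eventually.of_forall (fun ω h4 h5 => absurd ⟨h4, h5⟩ h3)
  filter_upwards [h2] with ω hω m
  refine simp_subset hs0 (fun c hc hcs => J.spe (A ω) m _ (fun ε hε => ?_))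
  obtain ⟨j, hj⟩ := exists_nat_one_div_lt hε
  filter_upwards [hω m c j hc hcs] with k hk
  rw [not_not, tr_eq_rb] at hk
  exact hk.mono hj.le

/-- **Upper half.** -/
theorem ae_noEsc (J : XJobs) {Ω : Type} [MeasurableSpace Ω] {μ : Measure Ω} [IsProbabilityMeasure μ] {A : Ω → Set ℕ}
    (hA : IsRandomSet A) {D : ℕ → ℝ} (hD0 : ∀ k, 0 ≤ D k) (hD : ∀ᶠ k : ℕ in atTop, relEntropy μ A (block k) ≤ D k)
    (hsum : Summable (fun k : ℕ => D k / k)) : ∀ᵐ ω ∂μ, ∀ m : ℕ, NoEsc m 1 (A ω) := by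
  classical
  have h1 : ∀ m j : ℕ, ∀ᵐ ω ∂μ, ∀ᶠ k : ℕ in atTop, ¬ ¬ Rich (wl (1 + 1 / ((j : ℝ) + 1)) k) m k (tr A (block k) ω) := by
    intro m j
    obtain ⟨κ, hκ, h2⟩ := J.spu (1 + 1 / ((j : ℝ) + 1)) m (by
      have : (0 : ℝ) < 1 / ((j : ℝ) + 1) := by positivity
      linarith)
    refine bc_ent J.si hA (fun k T => ¬ Rich (wl (1 + 1 / ((j : ℝ) + 1)) k) m k T) (fun k => κ / 2 * (k : ℝ)) D ?_ hD ?_ ?_
    · filter_upwards [eventually_ge_atTop 1] with k hk
      have : (0 : ℝ) < k := by exact_mod_cast hk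
      positivity
    · filter_upwards [h2] with k hk Ω' _ μ' _ A' hA'
      refine (hk Ω' μ' A' hA').trans (le_of_eq ?_)
      congr 1
      ring
    · -- `(D k + exp (-κ k / 2)) / (κ k / 2)`
      have h3 : Summable (fun k : ℕ => (2 / κ) * (D k / k + Real.exp (-(κ / 2)) ^ k)) := by
        refine (hsum.add (summable_geometric_of_lt_one (Real.exp_pos _).le ?_)).mul_left _
        rw [Real.exp_lt_one_iff]
        linarith
      refine Summable.of_norm_bounded_eventually_nat h3 ?_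
      filter_upwards [eventually_ge_atTop 1] with k hk
      have hk0 : (1 : ℝ) ≤ k := by exact_mod_cast hk
      have h4 := hD0 k
      rw [Real.norm_eq_abs, abs_of_nonneg (by positivity), ← Real.exp_nat_mul, div_le_iff₀ (by positivity)]
      have h5 : (2 / κ) * (D k / k + Real.exp ((k : ℝ) * -(κ / 2))) * (κ / 2 * k) = D k + Real.exp ((k : ℝ) * -(κ / 2)) * k := by
        field_simp
      rw [h5]
      have h6 : Real.exp (-(κ / 2 * (k : ℝ))) = Real.exp ((k : ℝ) * -(κ / 2)) := by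
        congr 1
        ring
      rw [h6]
      have h7 : 0 < Real.exp ((k : ℝ) * -(κ / 2)) := Real.exp_pos _
      nlinarith
  filter_upwards [ae_all_iff.2 (fun m => ae_all_iff.2 (h1 m))] with ω hω
  refine J.spd (A ω) 1 zero_le_one (fun m s' hs' => ?_)
  obtain ⟨j, hj⟩ := exists_nat_one_div_lt (show 0 < s' - 1 by linarith)
  filter_upwards [hω m j] with k hk
  rw [not_not, tr_eq_rb] at hk
  exact hk.mono (wl_mono (by linarith) k) le_rfl

/-- No limit points outside of the simplex. -/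
theorem limPts_subset {m : ℕ} {s : ℝ} {S : Set ℕ} (h : NoEsc m s S) (hinf : ∀ N : ℕ, ∃ n ∈ S, N < n) : LimPts m S ⊆ Simp m s := by
  classical
  intro c hc
  have hSinf : (setOf (fun a => a ∈ S)).Infinite := by
    intro hfin
    obtain ⟨N, hN⟩ := hfin.bddAbove
    obtain ⟨n, hn, hn2⟩ := hinf N
    have := hN hn
    omega
  have hmono : StrictMono (elt S) := Nat.nth_strictMono hSinf
  have hlog : ∀ᶠ n : ℕ in atTop, 0 < Real.log (elt S n) ^ 2 := by
    filter_upwards [eventually_ge_atTop 2] with n hn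
    have h1 : 2 ≤ elt S n := hn.trans hmono.le_apply
    have h2 : 0 < Real.log (elt S n) := Real.log_pos (by exact_mod_cast h1)
    positivity
  constructor
  · intro i
    by_contra h1
    rw [not_le] at h1
    obtain ⟨n, hn, hl⟩ := ((hc (-c i) (by linarith)).and_eventually hlog).exists
    have h2 := hn i
    have h3 : (elt S (n + i) : ℝ) ≤ elt S (n + i + 1) := by exact_mod_cast (hmono (Nat.lt_succ_self _)).le
    have h4 : 0 ≤ ((elt S (n + i + 1) : ℝ) - elt S (n + i)) / Real.log (elt S n) ^ 2 := div_nonneg (by linarith) hl.le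
    rw [abs_lt] at h2
    linarith [h2.2]
  · by_contra h1
    rw [not_le] at h1
    set d : ℝ := ∑ i, c i - s with hd
    have hd0 : 0 < d := by
      rw [hd]
      linarith
    have hm : (0 : ℝ) < (m : ℝ) + 1 := by positivity
    obtain ⟨n, ⟨hn1, hn2⟩, hl⟩ := (((hc (d / (3 * ((m : ℝ) + 1))) (by positivity)).and_eventually (h (d / 3) (by positivity))).and_eventually
      hlog).exists
    have h2 : ∑ i : Fin m, (((elt S (n + i + 1) : ℝ) - elt S (n + i)) / Real.log (elt S n) ^ 2) =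
        ((elt S (n + m) : ℝ) - elt S n) / Real.log (elt S n) ^ 2 := by
      rw [← sum_div]
      congr 1
      rw [Fin.sum_univ_eq_sum_range (fun i => ((elt S (n + i + 1) : ℝ) - elt S (n + i))) m]
      have h3 := sum_range_sub (fun i => (elt S (n + i) : ℝ)) m
      simpa [add_assoc] using h3
    have h3 : ∑ i, c i ≤ ∑ i : Fin m, (((elt S (n + i + 1) : ℝ) - elt S (n + i)) / Real.log (elt S n) ^ 2 + d / (3 * ((m : ℝ) + 1))) := by
      refine sum_le_sum (fun i _ => ?_)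
      have h4 := hn1 i
      rw [abs_lt] at h4
      linarith [h4.1]
    rw [sum_add_distrib, h2, sum_const, card_univ, Fintype.card_fin, nsmul_eq_mul] at h3
    have h4 : ((elt S (n + m) : ℝ) - elt S n) / Real.log (elt S n) ^ 2 ≤ s + d / 3 := by
      rw [div_le_iff₀ hl]
      exact hn2
    have h5 : (m : ℝ) * (d / (3 * ((m : ℝ) + 1))) ≤ d / 3 := by
      rw [mul_div_assoc', div_le_div_iff₀ (by positivity) (by norm_num)]
      nlinarith
    linarith

end Pool.Agent.Q120.SX
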