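import Pool.Agent.Q120.SX.Main

/-!
# Project SX: the thresholds
-/

set_option autoImplicit false

namespace Pool.Agent.Q120.SX

open Finset MeasureTheory Filter Pool.Agent.Q120.ET Pool.Agent.Q120.GM Pool.Agent.Q120.GE Pool.Agent.Q120.RZ Pool.Agent.Q120.SP
  Pool.Agent.Q120.LG Pool.Agent.Q120.SI Pool.Agent.Q120.MG
open scoped Topology

/-- A set whose limit points contain a nonzero number is infinite. -/
theorem inf_of_simp {s : ℝ} (hs : 0 < s) {S : Set ℕ} (h : Simp 1 s ⊆ LimPts 1 S) : (Set.ofPred (fun a => a ∈ S)).Infinite := by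
  classical
  intro hfin
  have h1 : (fun _ => s : Fin 1 → ℝ) ∈ LimPts 1 S := h ⟨fun _ => hs.le, by simp⟩
  obtain ⟨n, hn, hn2⟩ := ((h1 s hs).and_eventually (eventually_ge_atTop hfin.toFinset.card)).exists
  have h2 := hn 0
  have h3 : elt S (n + (0 : Fin 1) + 1) = 0 := Nat.nth_of_card_le hfin (by
    refine hn2.trans ?_
    omega)
  have h4 : elt S (n + (0 : Fin 1)) = 0 := Nat.nth_of_card_le hfin (by
    refine hn2.trans ?_
    omega)
  rw [h3, h4] at h2
  norm_num at h2
  rw [abs_of_pos hs] at h2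
  exact lt_irrefl _ h2

theorem inf_mem {S : Set ℕ} (h : (Set.ofPred (fun a => a ∈ S)).Infinite) : ∀ N : ℕ, ∃ n ∈ S, N < n := by
  intro N
  obtain ⟨n, h1, h2⟩ := h.exists_gt N
  exact ⟨n, h1, h2⟩

/-- **Exactness from the two halves.** -/
theorem exact_of {s : ℝ} (hs : 0 < s) {S : Set ℕ} (h1 : ∀ m, Simp m s ⊆ LimPts m S) (h2 : ∀ m, NoEsc m s S) : Exact s S := fun m =>
  ⟨Set.Subset.antisymm (limPts_subset (h2 m) (inf_mem (inf_of_simp hs (h1 1)))) (h1 m), h2 m⟩

/-- **Holes prevent `NoEsc`.** -/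
theorem hole_esc {S : Set ℕ} (hinf : (Set.ofPred (fun a => a ∈ S)).Infinite) {L : ℕ → ℕ}
    (hL : ∀ᶠ k : ℕ in atTop, 2 * ((k : ℝ) * Real.log 2) ^ 2 < L k)
    (h : ∃ᶠ k : ℕ in atTop, ∀ n ∈ S, ¬ (2 ^ k < n ∧ n ≤ 2 ^ k + L k)) : ¬ NoEsc 1 1 S := by
  classical
  intro hno
  obtain ⟨N, hN⟩ := eventually_atTop.1 (hno 1 one_pos)
  obtain ⟨k, ⟨hk1, hk2⟩, hk3⟩ := ((h.and_eventually hL).and_eventually (eventually_ge_atTop (elt S (N + 2)))).exists
  -- the last element up to `2 ^ k`
  obtain ⟨c, hc⟩ : ∃ c, c = Nat.count (fun a => a ∈ S) (2 ^ k + 1) := ⟨_, rfl⟩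
  have h1 : N + 2 < c := by
    rw [hc, Nat.lt_nth_iff_count_lt hinf]
    have h2 : elt S (N + 2) < 2 ^ k + 1 := by
      have := Nat.lt_two_pow_self (n := k)
      omega
    exact h2
  obtain ⟨n, hn⟩ : ∃ n, c = n + 1 := ⟨c - 1, by omega⟩
  have h2 : elt S n < 2 ^ k + 1 := by
    have h3 : n < Nat.count (fun a => a ∈ S) (2 ^ k + 1) := by
      rw [← hc]
      omega
    exact (Nat.lt_nth_iff_count_lt hinf).1 h3
  have h3 : 2 ^ k + 1 ≤ elt S (n + 1) := by
    have h4 : Nat.count (fun a => a ∈ S) (2 ^ k + 1) ≤ n + 1 := by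
      rw [← hc]
      omega
    exact (Nat.count_le_iff_le_nth hinf).1 h4
  have h4 : elt S (n + 1) ∈ S := Nat.nth_mem_of_infinite hinf (n + 1)
  have h5 : 2 ^ k + L k < elt S (n + 1) := by
    by_contra h6
    exact hk1 _ h4 ⟨by omega, by omega⟩
  have h6 := hN n (by omega)
  have h7 : Real.log (elt S n) ^ 2 ≤ ((k : ℝ) * Real.log 2) ^ 2 := by
    rcases Nat.eq_zero_or_pos (elt S n) with h8 | h8
    · rw [h8, Nat.cast_zero, Real.log_zero, zero_pow two_ne_zero]
      exact sq_nonneg _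
    · have h9 : (1 : ℝ) ≤ elt S n := by exact_mod_cast h8
      apply pow_le_pow_left₀ (Real.log_nonneg h9)
      rw [← Real.log_pow]
      apply Real.log_le_log (by linarith)
      have h10 : elt S n ≤ 2 ^ k := by omega
      exact_mod_cast h10
  have h8 : ((2 : ℝ) ^ k + L k) < elt S (n + 1) := by exact_mod_cast h5
  have h9 : (elt S n : ℝ) ≤ 2 ^ k := by
    have h10 : elt S n ≤ 2 ^ k := by omega
    exact_mod_cast h10
  nlinarith

/-- The hole lengths. -/
noncomputable def hl (k : ℕ) : ℕ := if 10 ≤ k then 2 * k ^ 2 else 1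

theorem hl_lt {k : ℕ} (hk : 2 ≤ k) : hl k < 2 ^ k := by
  unfold hl
  split_ifs with h
  · induction k, h using Nat.le_induction with
    | base => norm_num
    | succ n hn ih =>
      have h1 := ih (by omega)
      rw [pow_succ 2 n]
      nlinarith
  · exact Nat.one_lt_two_pow (by omega)

theorem hl_pos (k : ℕ) (_ : 2 ≤ k) : 0 < hl k := by
  unfold hl
  split_ifs with h
  · positivity
  · norm_num

/-- **(1)** -/
theorem exact_iff (J : XJobs) {d : ℕ → ℝ} (hd : ∀ k, 0 ≤ d k) : AllModels d (Exact 1) ↔ Summable (fun k : ℕ => d k / k) := by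
  classical
  constructor
  · intro hall
    by_contra hns
    have h1 : ¬ Summable (fun k : ℕ => d k * k / hl k) := by
      intro hs
      apply hns
      refine Summable.of_norm_bounded_eventually_nat (hs.mul_left 2) ?_
      filter_upwards [eventually_ge_atTop 10] with k hk
      have hk0 : (0 : ℝ) < k := by
        have : 0 < k := by omega
        exact_mod_cast this
      have h2 := hd k
      rw [Real.norm_eq_abs, abs_of_nonneg (by positivity)]
      have h3 : ((hl k : ℕ) : ℝ) = 2 * (k : ℝ) ^ 2 := by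
        unfold hl
        rw [if_pos hk]
        push_cast
        ring
      rw [h3]
      apply le_of_eq
      field_simp
    obtain ⟨Ω, m, μ, hμ, A, hA, h2, h3⟩ := MG.some_hole J.si hl_pos (fun k hk => hl_lt hk) hd h1
    have h4 := hall Ω μ A hA (by
      filter_upwards [eventually_ge_atTop 2] with k hk
      exact h2 k hk)
    obtain ⟨ω, h5, h6⟩ := (h4.and h3).exists
    refine hole_esc (inf_of_simp one_pos (h5 1).1.ge) ?_ h6 (h5 1).2
    filter_upwards [eventually_ge_atTop 10] with k hk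
    have hk0 : (0 : ℝ) < k := by
      have : 0 < k := by omega
      exact_mod_cast this
    unfold hl
    rw [if_pos hk]
    push_cast
    have h7 := Real.log_two_lt_d9
    have h8 := Real.log_two_gt_d9
    have h9 : Real.log 2 ^ 2 < 1 := by nlinarith
    rw [mul_pow]
    have h10 : (k : ℝ) ^ 2 * Real.log 2 ^ 2 < (k : ℝ) ^ 2 * 1 := mul_lt_mul_of_pos_left h9 (by positivity)
    linarith
  · intro hsum Ω _ μ _ A hA hD
    have h1 := ae_noEsc J hA hd hD hsum
    have h2 := ae_simp J hA one_pos hd hD (fun t ht0 ht => by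
      refine ⟨(1 - t) / 2, by linarith, by linarith, ?_⟩
      refine Summable.of_norm_bounded_eventually_nat hsum ?_
      filter_upwards [SI.ev_pow_le (show (0 : ℝ) < (1 - t) / 2 by linarith) 1 1, eventually_ge_atTop 1] with k hk hk1
      have hk0 : (0 : ℝ) < k := by
        have : 0 < k := by omega
        exact_mod_cast this
      have h3 := hd k
      rw [one_mul, pow_one] at hk
      rw [Real.norm_eq_abs, abs_of_nonneg (by positivity)]
      exact div_le_div_of_nonneg_left h3 hk0 hk)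
    filter_upwards [h1, h2] with ω hω1 hω2
    exact exact_of one_pos hω2 hω1

/-- Monotonicity of the simplices. -/
theorem simp_mono {m : ℕ} {s s' : ℝ} (h : s ≤ s') : Simp m s ⊆ Simp m s' := fun _ hc => ⟨hc.1, hc.2.trans h⟩

/-- **(3)** The extreme sets. -/
theorem some_exact (J : XJobs) {δ : ℝ} (hδ : 0 ≤ δ) (hδ1 : δ < 1) : SomeLevel δ (Exact (1 - δ)) := by
  classical
  obtain ⟨P, hP1, hP2, hP3⟩ := J.sph (1 - δ) (by linarith) (by linarith)
  obtain ⟨Ω, m, μ, hμ, A, hA, h1, -, h3⟩ := J.si.mixb P (fun _ => 1) (fun k => {T | Rich (wl (1 - δ) k) (Nat.log 2 k) k T})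
    hP1 (fun _ => ⟨zero_le_one, le_rfl⟩)
  have hlev : ∀ ε : ℝ, 0 < ε → ∀ᶠ k : ℕ in atTop, relEntropy μ A (block k) ≤ (2 : ℝ) ^ ((δ + ε) * k) := by
    intro ε hε
    filter_upwards [hP2 ε hε, eventually_ge_atTop 2] with k hk hk2
    refine (h1 k hk2).trans ?_
    rw [one_mul]
    refine hk.trans (le_of_eq ?_)
    congr 2
    ring
  have h4 : ∀ᵐ ω ∂μ, ∀ᶠ k : ℕ in atTop, tr A (block k) ω ∈ {T | Rich (wl (1 - δ) k) (Nat.log 2 k) k T} := by
    refine h3 (fun _ => rfl) ?_
    refine summable_of_finite_support (Set.Finite.subset (Set.finite_lt_nat (Classical.choose (eventually_atTop.1 hP3))) ?_)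
    intro k hk
    by_contra h5
    apply hk
    have h6 := Classical.choose_spec (eventually_atTop.1 hP3) k (by
      by_contra h7
      exact h5 (by simpa using h7))
    refine sum_eq_zero (fun T hT => ?_)
    rw [mem_filter] at hT
    by_contra h7
    exact hT.2 (h6 T hT.1 h7)
  refine ⟨Ω, m, μ, hμ, A, hA, hlev, ?_⟩
  have h5 : ∀ᵐ ω ∂μ, ∀ m : ℕ, Simp m (1 - δ) ⊆ LimPts m (A ω) := by
    refine ae_simp J hA (by linarith) (D := fun k => max 0 (relEntropy μ A (block k))) (fun k => le_max_left _ _)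
      (Eventually.of_forall (fun k => le_max_right _ _)) (fun t ht0 ht => ?_)
    refine ⟨(1 - t + δ) / 2, by linarith, by linarith, ?_⟩
    obtain ⟨ε, hε⟩ : ∃ ε : ℝ, ε = (1 - t - δ) / 4 := ⟨_, rfl⟩
    have hε0 : 0 < ε := by linarith
    refine Summable.of_norm_bounded_eventually_nat (SI.summable_pow_div hε0 0) ?_
    filter_upwards [hlev ε hε0] with k hk
    rw [Real.norm_eq_abs, abs_of_nonneg (by positivity), pow_zero, div_le_div_iff₀ (by positivity) (by positivity), one_mul,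
      show (1 - t + δ) / 2 * (k : ℝ) = (δ + ε) * k + ε * k by rw [hε]; ring, Real.rpow_add (by norm_num)]
    exact mul_le_mul_of_nonneg_right (max_le (by positivity) hk) (by positivity)
  filter_upwards [h4, h5] with ω hω1 hω2
  refine exact_of (by linarith) hω2 (J.spd (A ω) (1 - δ) (by linarith) (fun m s' hs' => ?_))
  have h6 : ∀ᶠ k : ℕ in atTop, m ≤ Nat.log 2 k := by
    filter_upwards [eventually_ge_atTop (2 ^ m)] with k hk
    exact Nat.le_log_of_pow_le (by norm_num) hk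
  filter_upwards [hω1, h6] with k hk hk2
  have hk' : Rich (wl (1 - δ) k) (Nat.log 2 k) k (tr A (block k) ω) := hk
  rw [tr_eq_rb] at hk'
  exact hk'.mono (wl_mono hs'.le k) hk2

/-- **(2)** The levels. -/
theorem simp_level (J : XJobs) {δ s : ℝ} (hδ : 0 ≤ δ) (hδ1 : δ < 1) (hs : 0 ≤ s) :
    AllLevel δ (fun S => ∀ m : ℕ, Simp m s ⊆ LimPts m S) ↔ s ≤ 1 - δ := by
  classical
  constructor
  · intro hall
    by_contra h
    rw [not_le] at h
    obtain ⟨Ω, m, μ, hμ, A, hA, h1, h2⟩ := some_exact J hδ hδ1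
    obtain ⟨ω, h3, h4⟩ := ((hall Ω μ A hA h1).and h2).exists
    have h5 : (fun _ => s : Fin 1 → ℝ) ∈ Simp 1 (1 - δ) := by
      rw [← (h4 1).1]
      exact h3 1 ⟨fun _ => hs, by simp⟩
    have h6 := h5.2
    simp at h6
    linarith
  · intro h Ω _ μ _ A hA hlev
    have h5 : ∀ᵐ ω ∂μ, ∀ m : ℕ, Simp m (1 - δ) ⊆ LimPts m (A ω) := by
      refine ae_simp J hA (by linarith) (D := fun k => max 0 (relEntropy μ A (block k))) (fun k => le_max_left _ _)
        (Eventually.of_forall (fun k => le_max_right _ _)) (fun t ht0 ht => ?_)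
      refine ⟨(1 - t + δ) / 2, by linarith, by linarith, ?_⟩
      obtain ⟨ε, hε⟩ : ∃ ε : ℝ, ε = (1 - t - δ) / 4 := ⟨_, rfl⟩
      have hε0 : 0 < ε := by linarith
      refine Summable.of_norm_bounded_eventually_nat (SI.summable_pow_div hε0 0) ?_
      filter_upwards [hlev ε hε0] with k hk
      rw [Real.norm_eq_abs, abs_of_nonneg (by positivity), pow_zero, div_le_div_iff₀ (by positivity) (by positivity), one_mul,
        show (1 - t + δ) / 2 * (k : ℝ) = (δ + ε) * k + ε * k by rw [hε]; ring, Real.rpow_add (by norm_num)]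
      exact mul_le_mul_of_nonneg_right (max_le (by positivity) hk) (by positivity)
    filter_upwards [h5] with ω hω m
    exact (simp_mono h).trans (hω m)

/-- **The theorem of the project.** -/
theorem main (J : XJobs) :
    (∀ d : ℕ → ℝ, (∀ k, 0 ≤ d k) → (AllModels d (Exact 1) ↔ Summable (fun k : ℕ => d k / k))) ∧
    ∀ δ : ℝ, 0 ≤ δ → δ < 1 →
      (∀ s : ℝ, 0 ≤ s → (AllLevel δ (fun S => ∀ m : ℕ, Simp m s ⊆ LimPts m S) ↔ s ≤ 1 - δ)) ∧ SomeLevel δ (Exact (1 - δ)) :=
  ⟨fun _ hd => exact_iff J hd, fun _ hδ hδ1 => ⟨fun _ hs => simp_level J hδ hδ1 hs, some_exact J hδ hδ1⟩⟩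

end Pool.Agent.Q120.SX
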