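import Pool.Agent.Q120.SX.Stm

/-!
# Project SX, one more lemma: no limit points at infinity
-/

set_option autoImplicit false

namespace Pool.Agent.Q120.SX

open Finset MeasureTheory Filter Pool.Agent.Q120.ET Pool.Agent.Q120.GM Pool.Agent.Q120.GE Pool.Agent.Q120.RZ Pool.Agent.Q120.SI
  Pool.Agent.Q120.MG
open scoped Topology

/-- The sums of `m` consecutive gaps are at most `(s + o(1)) log ^ 2`. -/
def NoEsc (m : ℕ) (s : ℝ) (S : Set ℕ) : Prop :=
  ∀ ε : ℝ, 0 < ε → ∀ᶠ n : ℕ in atTop, (elt S (n + m) : ℝ) - elt S n ≤ (s + ε) * Real.log (elt S n) ^ 2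

/-- **Job SPD2.** Sums of consecutive gaps (deterministic).
Proof. As `J_SPD` (whose conclusion follows from this one): if the inequality fails for infinitely many `n`, then with `a = elt S n`,
`b = elt S (n + m)`, `b - a > (s + ε) log ^ 2 a` for infinitely many `n`, `Ioo a b` contains exactly `m - 1` elements of `S`, and the three cases of the
proof of `J_SPD` (with `s' = s + ε / 2`) give a contradiction. -/
def J_SPD2 : Prop := ∀ (S : Set ℕ) (s : ℝ), 0 ≤ s → (∀ (m : ℕ) (s' : ℝ), s < s' → ∀ᶠ k : ℕ in atTop, Rich (wl s' k) m k (rb S k)) →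
  ∀ m : ℕ, NoEsc m s S

end Pool.Agent.Q120.SX
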