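import Pool.Agent.Q195.SX.SPD
import Pool.Agent.Q120.SX.Stm2

/-!
# Project SX: sums of consecutive gaps (adapted from helper195's proof of `J_SPD`)
-/

set_option autoImplicit false

namespace Pool.Agent.Q120.SX

open Finset Filter Pool.Agent.Q120.ET Pool.Agent.Q120.GM Pool.Agent.Q120.GE Pool.Agent.Q120.RZ Pool.Agent.Q120.SI
  Pool.Agent.Q120.MG Pool.Agent.Q195.SX.SPD

theorem t_SPD2 : J_SPD2 := by
  classical
  intro S s hs hR m D hD0
  have hl2 : (1 : ℝ) / 2 ≤ Real.log 2 := by
    have := Real.log_two_gt_d9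
    linarith
  have hinf : (setOf fun a => a ∈ S).Infinite := by
    obtain ⟨K, hK⟩ := eventually_atTop.1 (hR 1 (s + 1) (by linarith))
    apply Set.infinite_of_forall_exists_gt
    intro a
    have h1 := (hK (max K a) (le_max_left _ _)).2.1
    obtain ⟨x, hx⟩ := Finset.card_pos.1 (show 0 < _ from h1)
    rw [Finset.mem_filter, mem_rb] at hx
    refine ⟨x, hx.1.2, ?_⟩
    have h2 : a < 2 ^ a := Nat.lt_two_pow_self
    have h3 : 2 ^ a ≤ 2 ^ (max K a) := Nat.pow_le_pow_right (by norm_num) (le_max_right _ _)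
    omega
  have hmono : StrictMono (elt S) := Nat.nth_strictMono hinf
  have hgap : ∀ n i : ℕ, (0 : ℝ) ≤ (elt S (n + i + 1) : ℝ) - elt S (n + i) := by
    intro n i
    have h1 : elt S (n + i) < elt S (n + i + 1) := hmono (Nat.lt_succ_self _)
    have h2 : ((elt S (n + i) : ℕ) : ℝ) ≤ elt S (n + i + 1) := by exact_mod_cast h1.le
    linarith
  rcases Nat.eq_zero_or_pos m with h0 | hm
  · subst h0
    refine Eventually.of_forall (fun n => ?_)
    rw [Nat.add_zero, sub_self]
    positivity
  · by_contra hnot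
    have hfr : ∃ᶠ n : ℕ in atTop, ¬ ((elt S (n + m) : ℝ) - elt S n ≤ (s + D) * Real.log (elt S n) ^ 2) := by
      rwa [not_eventually] at hnot
    have hmR : (1 : ℝ) ≤ m := by exact_mod_cast hm
    obtain ⟨K1, hK1⟩ := eventually_atTop.1 (hR m (s + D / 3) (by linarith))
    obtain ⟨K2, hK2⟩ := exists_nat_ge (12 / D + 4)
    have hev : ∀ᶠ n : ℕ in atTop, 2 ^ (max K1 K2) ≤ n := eventually_ge_atTop _
    obtain ⟨n, hn, hnK⟩ := (hfr.and_eventually hev).exists
    obtain ⟨a, ha⟩ : ∃ a : ℕ, a = elt S n := ⟨_, rfl⟩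
    obtain ⟨b, hb⟩ : ∃ b : ℕ, b = elt S (n + m) := ⟨_, rfl⟩
    have han : n ≤ a := by rw [ha]; exact hmono.id_le n
    obtain ⟨k, hk⟩ : ∃ k : ℕ, k = Nat.log 2 a := ⟨_, rfl⟩
    have ha0 : a ≠ 0 := by
      have : 0 < 2 ^ (max K1 K2) := by positivity
      omega
    have hk1 : 2 ^ k ≤ a := by rw [hk]; exact Nat.pow_log_le_self 2 ha0
    have hk2 : a < 2 ^ (k + 1) := by rw [hk]; exact Nat.lt_pow_succ_log_self (by norm_num) a
    have hkK : max K1 K2 ≤ k := by
      rw [hk]
      exact Nat.le_log_of_pow_le (by norm_num) (hnK.trans han)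
    have hkK1 : K1 ≤ k := (le_max_left _ _).trans hkK
    have hkK2 : (12 / D + 4 : ℝ) ≤ k := by
      have h1 : K2 ≤ k := (le_max_right _ _).trans hkK
      have h2 : (K2 : ℝ) ≤ k := by exact_mod_cast h1
      linarith
    have hD12 : 0 < 12 / D := by positivity
    have hk4 : (4 : ℝ) ≤ k := by linarith
    have hDk : 12 ≤ D * k := by
      have h1 : 12 / D ≤ k := by linarith
      rw [div_le_iff₀ hD0] at h1
      linarith
    -- the sizes
    obtain ⟨L, hL⟩ : ∃ L : ℝ, L = (k * Real.log 2) ^ 2 := ⟨_, rfl⟩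
    have hL0 : 0 ≤ L := by rw [hL]; positivity
    have hDL : 3 ≤ D * L := by
      have h1 : (k : ℝ) ≤ L := by
        have h2 : (k : ℝ) / 2 ≤ k * Real.log 2 := by nlinarith
        have h3 : ((k : ℝ) / 2) ^ 2 ≤ L := by
          rw [hL]
          exact pow_le_pow_left₀ (by positivity) h2 2
        nlinarith
      nlinarith
    have hloga : k * Real.log 2 ≤ Real.log a := by
      have h1 : ((2 ^ k : ℕ) : ℝ) ≤ a := by exact_mod_cast hk1
      have h2 := Real.log_le_log (by positivity) h1
      push_cast at h2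
      rw [Real.log_pow] at h2
      exact h2
    have hlog0 : 0 < Real.log a := by
      have : 0 < k * Real.log 2 := by nlinarith
      linarith
    have hLa : L ≤ Real.log a ^ 2 := by
      rw [hL]
      exact pow_le_pow_left₀ (by positivity) hloga 2
    have hba : (s + 2 * D / 3) * L ≤ (b : ℝ) - a := by
      rw [← ha, ← hb, not_le] at hn
      have h2 := mul_le_mul_of_nonneg_left hLa (show 0 ≤ s + D by positivity)
      have h3 : (s + 2 * D / 3) * L ≤ (s + D) * L := mul_le_mul_of_nonneg_right (by linarith) hL0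
      linarith
    obtain ⟨h, hh⟩ : ∃ h : ℕ, h = wl (s + D / 3) k := ⟨_, rfl⟩
    have hhL : (h : ℝ) ≤ (s + D / 3) * L := by
      rw [hh, hL]
      exact Nat.floor_le (by positivity)
    have hhb : a + 1 + h ≤ b := by
      have h1 : (a : ℝ) + 1 + h ≤ b := by nlinarith
      exact_mod_cast h1
    have hRk := hK1 k hkK1
    have hRk1 := hK1 (k + 1) (by omega)
    rw [← hh] at hRk
    by_cases hA : a + 1 + h ≤ 2 ^ (k + 1)
    · have h1 := hRk.1 (a + 1) (by omega) hA
      have h2 := card_between (T := (rb S k).filter (fun n => a + 1 ≤ n ∧ n < a + 1 + h)) hmono (n := n) hm (by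
        intro x hx
        rw [Finset.mem_filter, mem_rb] at hx
        rw [← ha, ← hb]
        exact ⟨hx.1.2, by omega, by omega⟩)
      omega
    · by_cases hB : a + 1 + h / 3 ≤ 2 ^ (k + 1)
      · have h1 := hRk.2.2
        have h2 := card_between (T := (rb S k).filter (fun n => 2 ^ (k + 1) ≤ n + h / 3)) hmono (n := n) hm (by
          intro x hx
          rw [Finset.mem_filter, mem_rb] at hx
          rw [← ha, ← hb]
          exact ⟨hx.1.2, by omega, by omega⟩)
        omega
      · have h1 := hRk1.2.1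
        obtain ⟨h', hh'⟩ : ∃ h' : ℕ, h' = wl (s + D / 3) (k + 1) := ⟨_, rfl⟩
        rw [← hh'] at h1
        have hh'L : (h' : ℝ) ≤ 2 * ((s + D / 3) * L) := by
          have h3 : (h' : ℝ) ≤ (s + D / 3) * (((k + 1 : ℕ) : ℝ) * Real.log 2) ^ 2 := by
            rw [hh']
            exact Nat.floor_le (by positivity)
          refine h3.trans ?_
          have h4 : (((k + 1 : ℕ) : ℝ) * Real.log 2) ^ 2 ≤ 2 * L := by
            rw [hL, mul_pow, mul_pow]
            push_cast
            have h5 : ((k : ℝ) + 1) ^ 2 ≤ 2 * (k : ℝ) ^ 2 := by nlinarith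
            have h6 := mul_le_mul_of_nonneg_right h5 (sq_nonneg (Real.log 2))
            linarith
          have h7 := mul_le_mul_of_nonneg_left h4 (show 0 ≤ s + D / 3 by positivity)
          linarith
        have h3 : 2 ^ (k + 1) + h' / 3 ≤ b := by
          have h4 : ((h / 3 : ℕ) : ℝ) ≤ (h : ℝ) / 3 := Nat.cast_div_le
          have h5 : ((h' / 3 : ℕ) : ℝ) ≤ (h' : ℝ) / 3 := Nat.cast_div_le
          have h6 : 2 ^ (k + 1) ≤ a + h / 3 := by omega
          have h7 : ((2 ^ (k + 1) : ℕ) : ℝ) ≤ ((a + h / 3 : ℕ) : ℝ) := by exact_mod_cast h6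
          rw [Nat.cast_add] at h7
          have h8 : ((2 ^ (k + 1) + h' / 3 : ℕ) : ℝ) ≤ b := by
            rw [Nat.cast_add]
            nlinarith
          exact_mod_cast h8
        have h2 := card_between (T := (rb S (k + 1)).filter (fun n => n < 2 ^ (k + 1) + h' / 3)) hmono (n := n) hm (by
          intro x hx
          rw [Finset.mem_filter, mem_rb] at hx
          rw [← ha, ← hb]
          exact ⟨hx.1.2, by omega, by omega⟩)
        omega

end Pool.Agent.Q120.SX
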