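import Pool.Agent.Q120.MGaps.Stm

/-!
# Project SX: the limit points of consecutive gaps, for ALL random sets near Cramér's model

`A` is ANY random set of integers, `D_k` the relative entropy (nats) of its law on the block `[2 ^ k, 2 ^ (k + 1))` with respect to
Cramér's model; `a_1 < a_2 < …` its elements, `g_n = a_(n+1) - a_n`; `L_m(A)` the set of the limit points of the vectors
`(g_n, …, g_(n+m-1)) / log ^ 2 a_n`, `Δ_m(s) = {c ≥ 0 : ∑ c_i ≤ s}`. Results of the project, assembled from the jobs: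
(1) `L_m(A) = Δ_m(1)` for all `m`, almost surely for all `A` with `D_k ≤ d_k`, iff `∑ d_k / k < ∞`;
(2) at the level `δ` (`D_k ≤ 2 ^ ((δ + o(1)) k)`, `0 ≤ δ < 1`) almost surely `L_m(A) ⊇ Δ_m(1 - δ)` for all `m`, and some `A` of level `δ` has
`L_m(A) = Δ_m(1 - δ)` for all `m`: `L_m(A) ⊇ Δ_m(s)` for all these `A` iff `s ≤ 1 - δ`.

Each job is a definition `J_… : Prop`; a theorem `t_… : J_…` is to be proved. The proofs are complete in the docstrings.
Tools: `Q184.LG.GUP` (`free_le`), `Q184.LG.GLO` and `Q184.LG.GHA` as patterns, `GM.Basic` (`harris`), `GM.Indep` (`indep_many`), `ET.Law` (`real_event`).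
-/

set_option autoImplicit false

namespace Pool.Agent.Q120.SX

open Finset MeasureTheory Filter Pool.Agent.Q120.ET Pool.Agent.Q120.GM Pool.Agent.Q120.GE Pool.Agent.Q120.RZ Pool.Agent.Q120.SI
  Pool.Agent.Q120.MG
open scoped Topology

/-- The elements of `S` in increasing order. -/
noncomputable def elt (S : Set ℕ) (n : ℕ) : ℕ := Nat.nth (fun a => a ∈ S) n

/-- The limit points of the vectors of `m` consecutive gaps divided by `log ^ 2`. -/
def LimPts (m : ℕ) (S : Set ℕ) : Set (Fin m → ℝ) :=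
  {c | ∀ ε : ℝ, 0 < ε → ∃ᶠ n : ℕ in atTop, ∀ i : Fin m,
    |((elt S (n + i + 1) : ℝ) - elt S (n + i)) / Real.log (elt S n) ^ 2 - c i| < ε}

/-- The simplex. -/
def Simp (m : ℕ) (s : ℝ) : Set (Fin m → ℝ) := {c | (∀ i, 0 ≤ c i) ∧ ∑ i, c i ≤ s}

/-- The pattern: `m + 1` consecutive elements of `T` whose differences are close to `c i (k log 2) ^ 2`. -/
def Pat (m : ℕ) (c : Fin m → ℝ) (ε : ℝ) (k : ℕ) (T : Finset ℕ) : Prop :=
  ∃ b : ℕ → ℕ, (∀ i ≤ m, b i ∈ T) ∧ ∀ i : Fin m, b i < b (i + 1) ∧ (∀ n ∈ T, ¬ (b i < n ∧ n < b (i + 1))) ∧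
    |((b (i + 1) : ℝ) - b i) - c i * (k * Real.log 2) ^ 2| ≤ ε * (k * Real.log 2) ^ 2

/-- All windows of length `h` of the block, and the windows of length `h / 3` at both ends, contain at least `m` elements of `T`. -/
def Rich (h m k : ℕ) (T : Finset ℕ) : Prop :=
  (∀ u : ℕ, 2 ^ k ≤ u → u + h ≤ 2 ^ (k + 1) → m ≤ (T.filter (fun n => u ≤ n ∧ n < u + h)).card) ∧
  m ≤ (T.filter (fun n => n < 2 ^ k + h / 3)).card ∧ m ≤ (T.filter (fun n => 2 ^ (k + 1) ≤ n + h / 3)).card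

/-- The window length. -/
noncomputable def wl (s : ℝ) (k : ℕ) : ℕ := ⌊s * (k * Real.log 2) ^ 2⌋₊

/-- **Job SPL.** Patterns in the model.
Proof (as `Q184.LG.GLO`). `L = k log 2`, `h i = ⌈c i L ^ 2⌉₊`, `H = ∑ h i + 1`. For `j < J = ⌊2 ^ k / H⌋` let `b_0 = 2 ^ k + j H`, `b_(i+1) = b_i + h i`
(so `b_m = b_0 + H - 1`), and let `G_j` be the event that `b_0, …, b_m ∈ A` and no other element of `Ico b_0 (b_0 + H)` is in `A`. The `G_j` are
independent (`indep_many`, disjoint windows), of probability at least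
`(1 / ((k + 1) log 2)) ^ (m + 1) * exp (-(H / L) (1 + 4 / k)) ≥ 2 ^ (-(∑ c i + ρ) k)` for large `k`, `ρ = (1 - ∑ c i - β) / 4`
(`-log (1 - x) ≤ x + x ^ 2` for `0 ≤ x ≤ 1/2`, `H ≤ ∑ c i L ^ 2 + m + 1`). So no `G_j` occurs with probability at most
`exp (-J 2 ^ (-(∑ c i + ρ) k)) ≤ exp (-2 ^ (β k))`, and `G_j` gives the pattern, as `|h i - c i L ^ 2| ≤ 1 ≤ ε L ^ 2`. -/
def J_SPL : Prop := ∀ (m : ℕ) (c : Fin m → ℝ) (β ε : ℝ), (∀ i, 0 < c i) → 0 < ε → β < 1 - ∑ i, c i → ∀ᶠ k : ℕ in atTop,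
  ∀ (Ω : Type) [MeasurableSpace Ω] (μ : Measure Ω) [IsProbabilityMeasure μ] (A : Ω → Set ℕ), IsModel μ pc A →
    μ.real {ω | ¬ Pat m c ε k (tr A (block k) ω)} ≤ Real.exp (-(2 : ℝ) ^ (β * k))

/-- **Job SPU.** Windows with few elements are unlikely in the model.
Proof. For a window `W` of the block with `h` elements: `A` has fewer than `m` elements in `W` iff `A` is disjoint from `W \ Q` for some `Q ⊆ W` with
`|Q| < m`; there are at most `(h + 1) ^ m` such `Q` and each has probability at most `exp (-(h - m) / ((k + 1) log 2))` (`free_le` of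
`Q184.LG.GUP`). With `h = wl s k ≥ s (k log 2) ^ 2 - 1` and at most `2 ^ k` windows: `2 ^ k (h + 1) ^ m exp (-(h - m) / ((k + 1) log 2))`, at most
`exp (-2 κ k)` for large `k`, `κ = min ((s - 1) log 2 / 4) (1 / 10)`; the two windows at the ends (length `h / 3`): `(h + 1) ^ m exp (-(h / 3 - 1 - m) / ((k + 1) log 2))`. -/
def J_SPU : Prop := ∀ (s : ℝ) (m : ℕ), 1 < s → ∃ κ : ℝ, 0 < κ ∧ ∀ᶠ k : ℕ in atTop,
  ∀ (Ω : Type) [MeasurableSpace Ω] (μ : Measure Ω) [IsProbabilityMeasure μ] (A : Ω → Set ℕ), IsModel μ pc A →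
    μ.real {ω | ¬ Rich (wl s k) m k (tr A (block k) ω)} ≤ Real.exp (-(κ * k))

/-- **Job SPH.** The model conditioned on having at least `log k` elements in all windows.
Proof (as `Q184.LG.GHA`, with `h = wl s k`, `m = Nat.log 2 k`, `w = h / 3`). The complement of `A` is a model with the probabilities `1 - pc n`;
`Rich h m k` says that it contains none of the sets `W \ Q`, `W` one of the windows, `Q ⊆ W`, `|Q| < m`. `harris`:
`q ≥ ∏ (1 - P)` over these sets; for the windows of length `h` `P ≤ e₁ = exp (-(h - m) / ((k + 1) log 2))`, at most `2 ^ k (h + 1) ^ m` sets, for the two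
others `P ≤ e₂ = exp (-(w - m) / ((k + 1) log 2))`, at most `2 (h + 1) ^ m` sets; both tend to `0`, `-log (1 - x) ≤ 2 x`:
`log (1 / q) ≤ 2 * 2 ^ k (h + 1) ^ m e₁ + 4 (h + 1) ^ m e₂ ≤ 2 ^ ((1 - s + ε) k)` for large `k`, because `(h + 1) ^ m ≤ (k ^ 2 + 1) ^ (log k / log 2) = 2 ^ (o(k))`,
`e₁ ≤ 2 ^ (-(s - ε / 4) k)` and `(h + 1) ^ m e₂ ≤ 1 / 8` (and `2 ^ ((1 - s + ε) k) ≥ 1`). -/
def J_SPH : Prop := ∀ s : ℝ, 0 < s → s ≤ 1 → ∃ P : ℕ → Finset ℕ → ℝ,
  (∀ k, 2 ≤ k → (∀ T ∈ (block k).powerset, 0 ≤ P k T) ∧ ∑ T ∈ (block k).powerset, P k T = 1) ∧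
  (∀ ε : ℝ, 0 < ε → ∀ᶠ k : ℕ in atTop,
    ∑ T ∈ (block k).powerset, P k T * Real.log (P k T / cramerOn (block k) T) ≤ (2 : ℝ) ^ ((1 - s + ε) * k)) ∧
  ∀ᶠ k : ℕ in atTop, ∀ T ∈ (block k).powerset, P k T ≠ 0 → Rich (wl s k) (Nat.log 2 k) k T

/-- **Job SPD.** The limit points are in the simplex (deterministic).
Proof. Let `c ∈ LimPts m S`; `c i ≥ 0` since the gaps are (`S` is infinite by the hypothesis with `m = 1`, so `elt S` is strictly
increasing). If `∑ c i > s` choose `s < s' < ∑ c i`; then for infinitely many `n`, with `a = elt S n` and `b = elt S (n + m)`,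
`b - a ≥ s'' log ^ 2 a + 2` for some `s'' > s'` (telescoping), and `Ioo a b` contains exactly `m - 1` elements of `S`. Let `a` be in block `k`, large,
`h = wl s' k ≤ b - a - 1`. If `a + 1 + h ≤ 2 ^ (k + 1)` the window `[a + 1, a + 1 + h) ⊆ Ioo a b` has at least `m` elements (`Rich`), a contradiction.
Otherwise `b > 2 ^ (k + 1)`; if `a + 1 ≤ 2 ^ (k + 1) - h / 3` then `Ioo a b` contains the last window of block `k`, with at least `m` elements; if not,
`b ≥ a + 1 + (b - a - 1) ≥ 2 ^ (k + 1) - h / 3 + s'' (k log 2) ^ 2` and `Ioo a b` contains the first window, of length `wl s' (k + 1) / 3`, of block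
`k + 1`, a contradiction again. The case `m = 0` is trivial if `0 ≤ s`. -/
def J_SPD : Prop := ∀ (S : Set ℕ) (s : ℝ), 0 ≤ s → (∀ (m : ℕ) (s' : ℝ), s < s' → ∀ᶠ k : ℕ in atTop, Rich (wl s' k) m k (rb S k)) →
  ∀ m : ℕ, LimPts m S ⊆ Simp m s

/-- **Job SPE.** Patterns give limit points (deterministic).
Proof. Let `ε > 0`. For large `k` there are consecutive elements `b 0 < … < b m` of `rb S k` (so of `S`, as they are in one block) with
`|b (i+1) - b i - c i L ^ 2| ≤ (ε / 4) L ^ 2`, `L = k log 2`. `S` is infinite (it meets all large blocks); let `n = Nat.count (· ∈ S) (b 0)`: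
`elt S n = b 0` (`Nat.nth_count`) and inductively `elt S (n + i) = b i`; `n ≥ k - K` since each block between `K` and `k` contains an
element. `L ≤ log (b 0) ≤ L + log 2`, so `(b (i+1) - b i) / log ^ 2 (b 0)` is within `ε` of `c i` for large `k`. The case `m = 0` is trivial. -/
def J_SPE : Prop := ∀ (S : Set ℕ) (m : ℕ) (c : Fin m → ℝ), (∀ ε : ℝ, 0 < ε → ∀ᶠ k : ℕ in atTop, Pat m c ε k (rb S k)) → c ∈ LimPts m S

end Pool.Agent.Q120.SX
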